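import Pool.Agent.Lib.MP_634427_lc.Qp.Compile
import Pool.Agent.Lib.MP_634427_lc.Votes.Cands
import Pool.Agent.Lib.MP_634427_lc.Gen
import Pool.Agent.Lib.MP_634427_lc.Low

/-!
# Padded candidate lists for unique projections of witnesses

`Votes.exists_cands_pad` with the parameter `(a, M)`, `v (a, M) r b = g (code (enc (a, (r, b))), M)`
(`g` from `QT.pad`), `Kc (a, M) = Votes.dbl M (..)`; `exists_parity_proj` of `Gen.lean`. As
`exists_proj_cands` in `Gen.lean`.
-/

namespace Pool.Agent.Lib.MP_634427_lc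

/-- Padded candidate lists for unique projections of witnesses. -/
def QCands : Prop :=
  ∀ {α : Type} [Enc α] (Rel : α × Word → Bool) (π : α × Word → Word) (m m' : α → ℕ),
    PT Rel → PT π → PT m → PT m' →
    ∃ (cand : α × ℕ → List Word) (d : ℕ), PT cand ∧ ∀ a M u, 2 ^ plog d (sz a) ≤ M →
      u.length = m' a → (∃ w : Word, w.length = m a ∧ Rel (a, w) = true) →
      (∀ w : Word, w.length = m a → Rel (a, w) = true → π (a, w) = u) → u ∈ cand (a, M)

theorem qcands_of_qone (S : Set Word) (hS : QDense S) (hard : ∀ A, InNP A → QOne A S) :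
    QCands := by
  intro α _ Rel π m m' hRel hπ hm hm'
  obtain ⟨A, hA, hmem⟩ := exists_parity_proj Rel π m hRel hπ hm
  obtain ⟨F, c, hF, hFA⟩ := hard A hA
  simp only [balance_eq_score] at hFA
  obtain ⟨c0, hc0⟩ := hS
  obtain ⟨g, c1, hg, hgF⟩ := QT.pad hF
  obtain ⟨c2, hc2⟩ := QT.size_le hF
  obtain ⟨k, hk⟩ := hm'.size_le
  have hmk : ∀ a, m' a ≤ (sz a + 2) ^ k := fun a => by
    have := hk a; rwa [sz_nat] at this
  -- the size of the instances
  let G : ℕ → ℕ := fun n => 2 * (2 * (n + (2 * (n + 2) ^ k + 1 + 1) + 1) + 1)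
  have hG : PB G :=
    PB.mul (PB.const 2) (PB.add (PB.mul (PB.const 2) (PB.add (PB.add PB.id (PB.add (PB.add
      (PB.mul (PB.const 2) (⟨k, fun n => le_rfl⟩ : PB fun n => (n + 2) ^ k)) (PB.const 1))
        (PB.const 1))) (PB.const 1))) (PB.const 1))
  have hx1 : ∀ (a : α) (r : Word) (b : Bool), r.length ≤ m' a →
      (code (enc (a, (r, b)))).length ≤ G (sz a) ∧ sz (code (enc (a, (r, b)))) ≤ G (sz a) := by
    intro a r b hr
    have h0 : (code (enc (a, (r, b)))).length = 2 * (sz a + (sz r + sz b + 1) + 1) + 1 :=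
      length_code _
    have h1 := sz_word_le r
    have h2 := sz_bool_le b
    have h3 := hmk a
    have h4 := sz_word_le (code (enc (a, (r, b))))
    simp only [G]
    constructor <;> omega
  -- the bounds
  let q1 : ℕ → ℕ := fun n => 2 ^ plog c2 (G n)
  have hq1 : Qp.QB q1 := Qp.QB.two_pow (Qp.QB.plog c2 (Qp.QB.of_pb hG))
  let D : ℕ → ℕ := fun n => plog c (G n)
  have hD : Qp.PL D := Qp.QB.plog c (Qp.QB.of_pb hG)
  have hE : Qp.PL fun n => (plog c0 (q1 n) + 1) * D n + plog c1 (G n) :=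
    (((Qp.QB.plog c0 hq1).add (Qp.PL.const 1)).mul hD).add (Qp.QB.plog c1 (Qp.QB.of_pb hG))
  obtain ⟨d, hd⟩ := hE
  have hd1 : ∀ (a : α) (M : ℕ), 2 ^ plog d (sz a) ≤ M →
      2 ^ ((plog c0 (q1 (sz a)) + 1) * D (sz a)) ≤ M := fun a M hM =>
    (Nat.pow_le_pow_right (by norm_num) ((Nat.le_add_right _ _).trans (hd (sz a)))).trans hM
  have hd2 : ∀ (a : α) (M : ℕ), 2 ^ plog d (sz a) ≤ M → 2 ^ plog c1 (G (sz a)) ≤ M :=
    fun a M hM =>
      (Nat.pow_le_pow_right (by norm_num) ((Nat.le_add_left _ _).trans (hd (sz a)))).trans hM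
  obtain ⟨cand, hcand, hc⟩ := Votes.exists_cands_pad S (α := α × ℕ) (fun p => m' p.1)
    (hm'.comp PT.fst) (fun p r b => g (code (enc (p.1, (r, b))), p.2))
    (fun b => hg.comp (PT.pair (PT.code (pt_enc (PT.pair (PT.fst' PT.fst)
      (PT.pair PT.snd (PT.const b))))) (PT.snd' PT.fst))) (fun p => p.2) PT.snd
  refine ⟨cand, d, hcand, fun a M u hM hu hex huniq => hc (a, M) u hu ?_ ?_⟩
  · refine ⟨listsOf (finite_words S (q1 (sz a))).toFinset (D (sz a)), ?_, ?_⟩
    · refine (card_listsOf_le _ _).trans (le_trans ?_ (hd1 a M hM))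
      rw [pow_mul]
      refine Nat.pow_le_pow_left ?_ _
      have h1 := hc0 (q1 (sz a))
      rw [Set.ncard_eq_toFinset_card _ (finite_words S (q1 (sz a)))] at h1
      have h2 : 1 ≤ 2 ^ plog c0 (q1 (sz a)) := Nat.one_le_two_pow
      rw [pow_succ]
      omega
    · intro r b hr e he heS
      obtain ⟨h1, h2⟩ := hx1 a r b hr
      have h3 : g (code (enc (a, (r, b))), M) = F (code (enc (a, (r, b)))) :=
        hgF _ M ((Nat.pow_le_pow_right (by norm_num) (Qp.plog_mono c1 h2)).trans (hd2 a M hM))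
      have he' : e ∈ F (code (enc (a, (r, b)))) := by
        rw [← h3]
        exact he
      refine mem_listsOf _ _ _ (((hFA _).1 e he').trans (Qp.plog_mono c h1)) fun w hw => ?_
      rw [Set.Finite.mem_toFinset]
      refine ⟨heS w hw, ?_⟩
      have h4 := sz_mem_le he'
      have h5 := sz_mem_le hw
      have h6 := length_le_sz w
      have h7 : sz (F (code (enc (a, (r, b))))) ≤ q1 (sz a) :=
        (hc2 _).trans (Nat.pow_le_pow_right (by norm_num) (Qp.plog_mono c2 h2))
      rw [sz_prod] at h4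
      omega
  · intro r b hr
    obtain ⟨h1, h2⟩ := hx1 a r b hr
    have h3 : g (code (enc (a, (r, b))), M) = F (code (enc (a, (r, b)))) :=
      hgF _ M ((Nat.pow_le_pow_right (by norm_num) (Qp.plog_mono c1 h2)).trans (hd2 a M hM))
    change 0 < Votes.sc S (g (code (enc (a, (r, b))), M)) ↔ par r u = b
    rw [h3]
    unfold Votes.sc
    rw [← (hFA _).2, hmem]
    constructor
    · rintro ⟨w, h4, h5, h6⟩
      rwa [huniq w h4 h5] at h6
    · intro h
      obtain ⟨w, h4, h5⟩ := hex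
      exact ⟨w, h4, h5, by rw [huniq w h4 h5]; exact h⟩

end Pool.Agent.Lib.MP_634427_lc
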