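import Pool.Agent.Lib.MP_634427_lc.Maj.CheckPT

/-!
# The padded check runs in polynomial time

As `Maj.pt_check` in `Maj/CheckPT.lean`; the functions have the padding as a second argument.
-/

namespace Pool.Agent.Lib.MP_634427_lc.Qp

open Pool.Agent.Lib.MP_634427_lc
open Pool.Agent.Lib.MP_634427_lc.Maj

/-- The check with padding. -/
def checkQ (f : Word × ℕ → SB) (gap : ((Word × (ℕ × ℕ)) × IL) × ℕ → Bool) (m : Word → ℕ)
    (P k0 M R : Word × ℕ → ℕ) (a : (Word × ℕ) × List (List Node)) : Bool :=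
  check (fun q => f (q, a.1.2)) (fun b => gap (b, a.1.2)) m (fun x => P (x, a.1.2))
    (fun x => k0 (x, a.1.2)) (fun x => M (x, a.1.2)) (fun x => R (x, a.1.2)) (a.1.1, a.2)

section parts

variable {γ : Type} [Enc γ] {f : Word × ℕ → SB} {gap : ((Word × (ℕ × ℕ)) × IL) × ℕ → Bool}
  {x : γ → Word} {P m k0 M R n N : γ → ℕ}

private theorem pt_kidsQ {a : γ → Node} (hf : PT f) (hx : PT x) (hP : PT P) (hm : PT m)
    (hn : PT n) (hN : PT N) (ha : PT a) :
    PT fun c => kidsV (fun q => f (q, N c)) (x c) (P c) (m c) (n c) (a c) :=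
  PT.flatMap (f := fun c (D : IL) => f (quest (x c) (P c) D, N c))
    (PT.majKids hP hm hn (PT.fst' (PT.fst' ha)) (PT.snd' (PT.fst' ha)))
    (hf.comp (PT.pair (PT.majQuest (hx.comp PT.fst) (hP.comp PT.fst) PT.snd) (hN.comp PT.fst)))

private theorem pt_listQ {Y : γ → List Node} (hf : PT f) (hx : PT x) (hP : PT P) (hm : PT m)
    (hn : PT n) (hN : PT N) (hY : PT Y) :
    PT fun c => listV (fun q => f (q, N c)) (x c) (P c) (m c) (n c) (Y c) :=
  PT.flatMap (f := fun c (a : Node) => f (quest (x c) (P c) (normN (P c) (m c) (n c) a.1.1), N c))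
    hY (hf.comp (PT.pair (PT.majQuest (hx.comp PT.fst) (hP.comp PT.fst)
      (PT.majNorm (hP.comp PT.fst) (hm.comp PT.fst) (hn.comp PT.fst)
        (PT.fst' (PT.fst' PT.snd)))) (hN.comp PT.fst)))

private theorem pt_lvlOKQ {Y Y' : γ → List Node} (hf : PT f) (hgap : PT gap) (hx : PT x)
    (hP : PT P) (hm : PT m) (hk : PT k0) (hM : PT M) (hR : PT R) (hn : PT n) (hN : PT N)
    (hY : PT Y) (hY' : PT Y') : PT fun c =>
      lvlOK (fun q => f (q, N c)) (fun b => gap (b, N c)) (x c) (P c) (m c) (k0 c) (M c) (R c)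
        (n c) (Y c) (Y' c) :=
  PT.all (p := fun c (a : Node) =>
      gap (((x c, (P c, k0 c)), normN (P c) (m c) (n c) a.1.1), N c) &&
      closeN (P c ^ 4) (M c) (R c) (kidsV (fun q => f (q, N c)) (x c) (P c) (m c) (n c) a)
        (listV (fun q => f (q, N c)) (x c) (P c) (m c) (n c + 1) (Y' c))) hY
    (PT.and
      (hgap.comp (PT.pair (PT.pair (PT.pair (hx.comp PT.fst)
        (PT.pair (hP.comp PT.fst) (hk.comp PT.fst)))
        (PT.majNorm (hP.comp PT.fst) (hm.comp PT.fst) (hn.comp PT.fst)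
          (PT.fst' (PT.fst' PT.snd)))) (hN.comp PT.fst)))
      (PT.majClose (PT.pow (hP.comp PT.fst) 4) (hM.comp PT.fst) (hR.comp PT.fst)
        (pt_kidsQ hf (hx.comp PT.fst) (hP.comp PT.fst) (hm.comp PT.fst) (hn.comp PT.fst)
          (hN.comp PT.fst) PT.snd)
        (pt_listQ hf (hx.comp PT.fst) (hP.comp PT.fst) (hm.comp PT.fst)
          (PT.succ (hn.comp PT.fst)) (hN.comp PT.fst) (hY'.comp PT.fst))))

end parts

theorem pt_checkQ {f : Word × ℕ → SB} {gap : ((Word × (ℕ × ℕ)) × IL) × ℕ → Bool} {m : Word → ℕ}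
    {P k0 M R : Word × ℕ → ℕ} (hf : PT f) (hgap : PT gap) (hm : PT m) (hP : PT P) (hk : PT k0)
    (hM : PT M) (hR : PT R) : PT (checkQ f gap m P k0 M R) := by
  have hb : PT fun a : (Word × ℕ) × List (List Node) => a.1 := PT.fst
  have hx : PT fun a : (Word × ℕ) × List (List Node) => a.1.1 := PT.fst' PT.fst
  have hN : PT fun a : (Word × ℕ) × List (List Node) => a.1.2 := PT.snd' PT.fst
  have hl : PT fun a : (Word × ℕ) × List (List Node) => a.2 := PT.snd
  have hm' := hm.comp hx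
  have h1 : PT fun a : (Word × ℕ) × List (List Node) => (List.range (m a.1.1 + 3)).all fun n =>
      decide ((a.2.getD n []).length = M a.1) :=
    PT.all (p := fun (a : (Word × ℕ) × List (List Node)) (n : ℕ) =>
        decide ((a.2.getD n []).length = M a.1))
      (PT.range (PT.succ (PT.succ (PT.succ hm'))))
      (PT.eqNat (PT.length (PT.getLD PT.snd (hl.comp PT.fst) (PT.const [])))
        (hM.comp (hb.comp PT.fst)))
  have h2 : PT fun a : (Word × ℕ) × List (List Node) => (List.range (m a.1.1 + 2)).all fun n =>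
      lvlOK (fun q => f (q, a.1.2)) (fun b => gap (b, a.1.2)) a.1.1 (P a.1) (m a.1.1) (k0 a.1)
        (M a.1) (R a.1) n (a.2.getD n []) (a.2.getD (n + 1) []) :=
    PT.all (p := fun (a : (Word × ℕ) × List (List Node)) (n : ℕ) =>
        lvlOK (fun q => f (q, a.1.2)) (fun b => gap (b, a.1.2)) a.1.1 (P a.1) (m a.1.1) (k0 a.1)
          (M a.1) (R a.1) n (a.2.getD n []) (a.2.getD (n + 1) []))
      (PT.range (PT.succ (PT.succ hm')))
      (pt_lvlOKQ hf hgap (hx.comp PT.fst) (hP.comp (hb.comp PT.fst)) (hm.comp (hx.comp PT.fst))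
        (hk.comp (hb.comp PT.fst)) (hM.comp (hb.comp PT.fst)) (hR.comp (hb.comp PT.fst)) PT.snd
        (hN.comp PT.fst)
        (PT.getLD PT.snd (hl.comp PT.fst) (PT.const []))
        (PT.getLD (PT.succ PT.snd) (hl.comp PT.fst) (PT.const [])))
  have h3 : PT fun a : (Word × ℕ) × List (List Node) => (a.2.getD (m a.1.1 + 2) []).all fun b =>
      botN (P a.1) (m a.1.1) (m a.1.1 + 2) b.1.1 b.2 :=
    PT.all (p := fun (a : (Word × ℕ) × List (List Node)) (b : Node) =>
        botN (P a.1) (m a.1.1) (m a.1.1 + 2) b.1.1 b.2)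
      (PT.getLD (PT.succ (PT.succ hm')) hl (PT.const []))
      (PT.majBot (hP.comp (hb.comp PT.fst)) (hm.comp (hx.comp PT.fst))
        (PT.succ (PT.succ (hm.comp (hx.comp PT.fst)))) (PT.fst' (PT.fst' PT.snd))
        (PT.snd' PT.snd))
  exact PT.and h1 (PT.and h2 h3)

end Pool.Agent.Lib.MP_634427_lc.Qp
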