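import Pool.Agent.Lib.MP_634427_lc.Qp.Log
import Pool.Agent.Lib.MP_634427_lc.Maj.PrmPT

/-!
# The parameters

`p` bounds the size of the votes, `ρ` the number of the bundles inside the set, `z` is the main
parameter. As in `Maj/Prm.lean`, `Maj/PrmPT.lean`.
-/

namespace Pool.Agent.Lib.MP_634427_lc.Qp

open Pool.Agent.Lib.MP_634427_lc

/-- Inverse of the precision. -/
def RQ (ρ : ℕ) : ℕ := 4 * ρ + 1

/-- Length of the lists. -/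
def MQ (p ρ : ℕ) : ℕ := 16 * p ^ 2 * RQ ρ ^ 2 + 1

/-- The prime number. -/
def PQ (p ρ z : ℕ) : ℕ := LT.nextPrime (4 * MQ p ρ * (36 * p ^ 2 * RQ ρ ^ 2 + 1) +
  4 * (p + 1) * (z + 1) ^ 2)

/-- Bound for the gap test. -/
def kQ (p ρ z : ℕ) : ℕ := 4 * (p + 1) * PQ p ρ z

theorem prime_PQ (p ρ z : ℕ) : (PQ p ρ z).Prime := LT.nextPrime_prime _

private theorem prmQ_lt (p ρ z : ℕ) : 4 * MQ p ρ * (36 * p ^ 2 * RQ ρ ^ 2 + 1) +
    4 * (p + 1) * (z + 1) ^ 2 < PQ p ρ z := LT.lt_nextPrime _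

private theorem prmQ_div (a : ℝ) (R : ℕ) : a / (1 / (R : ℝ)) ^ 2 = a * (R : ℝ) ^ 2 := by
  rw [one_div, inv_pow, div_inv_eq_mul]

/-- `hM` of `check_complete`. -/
theorem prmQ_M (p ρ : ℕ) :
    16 * (p : ℝ) ^ 2 / (1 / (RQ ρ : ℝ)) ^ 2 ≤ (MQ p ρ : ℕ) := by
  rw [prmQ_div]
  have h : 16 * p ^ 2 * RQ ρ ^ 2 ≤ MQ p ρ := by
    unfold MQ
    omega
  exact_mod_cast h

/-- `hP` of `check_complete`. -/
theorem prmQ_P (p ρ z : ℕ) :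
    4 * (MQ p ρ : ℕ) * (36 * (p : ℝ) ^ 2 / (1 / (RQ ρ : ℝ)) ^ 2 + 1) ≤ (PQ p ρ z : ℕ) := by
  rw [prmQ_div]
  have h := prmQ_lt p ρ z
  have h1 : 4 * MQ p ρ * (36 * p ^ 2 * RQ ρ ^ 2 + 1) ≤ PQ p ρ z := by omega
  exact_mod_cast h1

/-- `hP` of `check_sound`. -/
theorem prmQ_P' (p ρ : ℕ) {z m : ℕ} (h : m ≤ z) :
    4 * (p + 1) * (m + 1) ^ 2 ≤ PQ p ρ z := by
  have h1 := prmQ_lt p ρ z
  have h2 : 4 * (p + 1) * (m + 1) ^ 2 ≤ 4 * (p + 1) * (z + 1) ^ 2 :=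
    Nat.mul_le_mul_left _ (Nat.pow_le_pow_left (by omega) 2)
  omega

theorem qb_RQ {ρ : ℕ → ℕ} (hρ : QB ρ) : QB fun z => RQ (ρ z) := by
  exact ((QB.const 4).mul hρ).add (QB.const 1)

theorem qb_MQ {p ρ : ℕ → ℕ} (hp : QB p) (hρ : QB ρ) : QB fun z => MQ (p z) (ρ z) := by
  exact (((QB.const 16).mul (hp.pow 2)).mul ((qb_RQ hρ).pow 2)).add (QB.const 1)

theorem qb_PQ {p ρ : ℕ → ℕ} (hp : QB p) (hρ : QB ρ) : QB fun z => PQ (p z) (ρ z) z := by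
  have hN : QB fun z => 4 * MQ (p z) (ρ z) * (36 * p z ^ 2 * RQ (ρ z) ^ 2 + 1) +
      4 * (p z + 1) * (z + 1) ^ 2 :=
    (((QB.const 4).mul (qb_MQ hp hρ)).mul ((((QB.const 36).mul (hp.pow 2)).mul
      ((qb_RQ hρ).pow 2)).add (QB.const 1))).add
        (((QB.const 4).mul (hp.add (QB.const 1))).mul ((QB.id.add (QB.const 1)).pow 2))
  exact (((QB.const 2).mul hN).add (QB.const 2)).mono fun z => LT.nextPrime_le _

theorem qb_kQ {p ρ : ℕ → ℕ} (hp : QB p) (hρ : QB ρ) : QB fun z => kQ (p z) (ρ z) z := by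
  exact ((QB.const 4).mul (hp.add (QB.const 1))).mul (qb_PQ hp hρ)

section PT

variable {γ : Type} [Enc γ] {p ρ z : γ → ℕ}

theorem pt_RQ (hρ : PT ρ) : PT fun a => RQ (ρ a) := by
  exact PT.add (PT.mul (PT.const 4) hρ) (PT.const 1)

theorem pt_MQ (hp : PT p) (hρ : PT ρ) : PT fun a => MQ (p a) (ρ a) := by
  exact PT.add (PT.mul (PT.mul (PT.const 16) (PT.pow hp 2)) (PT.pow (pt_RQ hρ) 2)) (PT.const 1)

theorem pt_PQ (hp : PT p) (hρ : PT ρ) (hz : PT z) : PT fun a => PQ (p a) (ρ a) (z a) := by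
  exact PT.nextPrime (PT.add
    (PT.mul (PT.mul (PT.const 4) (pt_MQ hp hρ))
      (PT.add (PT.mul (PT.mul (PT.const 36) (PT.pow hp 2)) (PT.pow (pt_RQ hρ) 2)) (PT.const 1)))
    (PT.mul (PT.mul (PT.const 4) (PT.add hp (PT.const 1))) (PT.pow (PT.add hz (PT.const 1)) 2)))

theorem pt_kQ (hp : PT p) (hρ : PT ρ) (hz : PT z) : PT fun a => kQ (p a) (ρ a) (z a) := by
  exact PT.mul (PT.mul (PT.const 4) (PT.add hp (PT.const 1))) (pt_PQ hp hρ hz)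

end PT

end Pool.Agent.Lib.MP_634427_lc.Qp
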