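import Pool.Agent.Lib.MP_634427_lc.Qp.Gap
import Pool.Agent.Lib.MP_634427_lc.Qp.CheckPT
import Pool.Agent.Lib.MP_634427_lc.Qp.Prm
import Pool.Agent.Lib.MP_634427_lc.Maj.CheckComplete
import Pool.Agent.Lib.MP_634427_lc.Maj.CheckSound
import Pool.Agent.Lib.MP_634427_lc.Maj.Quest

/-!
# Certificates of quasi-polynomial size for the absence of witnesses

As `Maj.coNP_of_thr` in `Maj/Main.lean`, with `p = 2 ^ (v z)`, `ρ = 2 ^ (κ z)`, which are computed as
`Votes.dbl M (v z)`, `Votes.dbl M (κ z)` from the padding `M`. Here `v z = plog cs (2 * qlen z)`,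
`cs` from `QT.size_le` for the vote `F`, and `κ z = (v z ^ cS + cS + 1) * plog c (qlen z)`.
-/

namespace Pool.Agent.Lib.MP_634427_lc.Qp

open Pool.Agent.Lib.MP_634427_lc
open Pool.Agent.Lib.MP_634427_lc.Maj

private theorem cq_itm {P m n : ℕ} [NeZero P] (D : Itm P m n) (hn : n ≤ m + 2) :
    sz (itmL D) ≤ nlen P m := by
  have h := sz_node_le D 0 0 hn
  rw [sz_pair, sz_pair] at h
  omega

private theorem cq_nlen {P P' m m' : ℕ} (hP : P ≤ P') (hm : m ≤ m') : nlen P m ≤ nlen P' m' := by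
  unfold nlen
  exact Nat.mul_le_mul (Nat.mul_le_mul_left _ (Nat.pow_le_pow_left (by omega) 2))
    (Nat.pow_le_pow_left (by omega) 4)

private theorem cq_qb_qlen : QB qlen :=
  QB.of_pb ((((PB.const 4).mul (PB.id.pow 3)).add ((PB.const 2).mul (PB.id.pow 2))).add
    ((PB.const 10).mul PB.id) |>.add (PB.const 5))

/-- All bounds, as a function of `z`. -/
private def cqT (c1 dg : ℕ) (v κ : ℕ → ℕ) (z : ℕ) : ℕ :=
  2 ^ v z + 2 ^ κ z + 2 ^ plog c1 (2 * qlen z) +
    2 ^ plog dg (2 * z + PQ (2 ^ v z) (2 ^ κ z) z + kQ (2 ^ v z) (2 ^ κ z) z +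
      nlen (PQ (2 ^ v z) (2 ^ κ z) z) z + 3) +
    (z + 3) * (MQ (2 ^ v z) (2 ^ κ z) * (nlen (PQ (2 ^ v z) (2 ^ κ z) z) z + 1) + 1)

private theorem cq_sum (A B C D E : ℕ) : A ≤ A + B + C + D + E ∧ B ≤ A + B + C + D + E ∧
    C ≤ A + B + C + D + E ∧ D ≤ A + B + C + D + E ∧ E ≤ A + B + C + D + E := by
  omega

private theorem cq_le (c1 dg : ℕ) (v κ : ℕ → ℕ) (z : ℕ) :
    2 ^ v z ≤ cqT c1 dg v κ z ∧ 2 ^ κ z ≤ cqT c1 dg v κ z ∧
    2 ^ plog c1 (2 * qlen z) ≤ cqT c1 dg v κ z ∧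
    2 ^ plog dg (2 * z + PQ (2 ^ v z) (2 ^ κ z) z + kQ (2 ^ v z) (2 ^ κ z) z +
      nlen (PQ (2 ^ v z) (2 ^ κ z) z) z + 3) ≤ cqT c1 dg v κ z ∧
    (z + 3) * (MQ (2 ^ v z) (2 ^ κ z) * (nlen (PQ (2 ^ v z) (2 ^ κ z) z) z + 1) + 1) ≤
      cqT c1 dg v κ z :=
  cq_sum _ _ _ _ _

private theorem cq_qbT (c1 dg : ℕ) {v κ : ℕ → ℕ} (hv : PL v) (hκ : PL κ) :
    QB (cqT c1 dg v κ) := by
  have h1 : QB fun z => 2 ^ v z := QB.two_pow hv
  have h2 : QB fun z => 2 ^ κ z := QB.two_pow hκ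
  have h3 : QB fun z => PQ (2 ^ v z) (2 ^ κ z) z := qb_PQ h1 h2
  have h4 : QB fun z => kQ (2 ^ v z) (2 ^ κ z) z := qb_kQ h1 h2
  have h5 : QB fun z => MQ (2 ^ v z) (2 ^ κ z) := qb_MQ h1 h2
  have h6 : QB fun z => nlen (PQ (2 ^ v z) (2 ^ κ z) z) z :=
    ((QB.const 8).mul ((QB.id.add (QB.const 3)).pow 2)).mul ((h3.add (QB.const 1)).pow 4)
  have h7 : QB fun z => 2 ^ plog c1 (2 * qlen z) :=
    QB.two_pow (QB.plog c1 ((QB.const 2).mul cq_qb_qlen))
  have h8 : QB fun z => 2 ^ plog dg (2 * z + PQ (2 ^ v z) (2 ^ κ z) z +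
      kQ (2 ^ v z) (2 ^ κ z) z + nlen (PQ (2 ^ v z) (2 ^ κ z) z) z + 3) :=
    QB.two_pow (QB.plog dg ((((((QB.const 2).mul QB.id).add h3).add h4).add h6).add (QB.const 3)))
  exact (((h1.add h2).add h7).add h8).add ((QB.id.add (QB.const 3)).mul
    ((h5.mul (h6.add (QB.const 1))).add (QB.const 1)))

theorem exists_certQ (S : Set Word) (hS : QDense S) (hard : ∀ A, InNP A → QOne A S)
    {Rel : Word × Word → Bool} {m : Word → ℕ} (hRel : PT Rel) (hm : PT m) :
    ∃ (G : (Word × ℕ) × List (List Node) → Bool) (d : ℕ), PT G ∧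
      ∀ x M, 2 ^ plog d x.length ≤ M →
        (∀ Y, G ((x, M), Y) = true → ¬ ∃ w : Word, w.length = m x ∧ Rel (x, w) = true) ∧
        ((¬ ∃ w : Word, w.length = m x ∧ Rel (x, w) = true) →
          ∃ Y, sz Y ≤ 2 ^ plog d x.length ∧ G ((x, M), Y) = true) := by
  classical
  obtain ⟨A, hA, hAq⟩ := exists_quest hRel hm
  obtain ⟨F, c, hF, hFs⟩ := hard A hA
  obtain ⟨g, c1, hg, hgF⟩ := hF.pad
  obtain ⟨cs, hcs⟩ := hF.size_le
  obtain ⟨gap, dg, hgap, hgs, hgc⟩ := exists_gapQ (qcands_of_qone S hS hard) hRel hm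
  obtain ⟨cS, hcS⟩ := hS
  obtain ⟨v, hv⟩ : ∃ v : ℕ → ℕ, v = fun z => plog cs (2 * qlen z) := ⟨_, rfl⟩
  obtain ⟨κ, hκ⟩ : ∃ κ : ℕ → ℕ, κ = fun z => (v z ^ cS + cS + 1) * plog c (qlen z) := ⟨_, rfl⟩
  have hvPL : PL v := by
    rw [hv]
    exact QB.plog cs ((QB.const 2).mul cq_qb_qlen)
  have hκPL : PL κ := by
    rw [hκ]
    exact (((hvPL.pow cS).add (PL.const cS)).add (PL.const 1)).mul (QB.plog c cq_qb_qlen)
  obtain ⟨E, hE1, hE⟩ := (qb_PQ (QB.two_pow hvPL) (QB.two_pow hκPL)).lt_two_pow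
  let z : Word → ℕ := fun x => E * (x.length + m x + 2)
  have hz : PT z := PT.mul (PT.const E) (PT.succ (PT.succ (PT.add (PT.length PT.id) hm)))
  have hzE : ∀ x, x.length + m x + 2 ≤ z x := fun x => Nat.le_mul_of_pos_left _ hE1
  have hzE' : ∀ x, E ≤ z x := fun x => Nat.le_mul_of_pos_right _ (by omega)
  -- the parameters in the padded form
  let vx : Word × ℕ → ℕ := fun a => Votes.dbl a.2 (v (z a.1))
  let κx : Word × ℕ → ℕ := fun a => Votes.dbl a.2 (κ (z a.1))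
  let P : Word × ℕ → ℕ := fun a => PQ (vx a) (κx a) (z a.1)
  let k0 : Word × ℕ → ℕ := fun a => kQ (vx a) (κx a) (z a.1)
  let M : Word × ℕ → ℕ := fun a => MQ (vx a) (κx a)
  let R : Word × ℕ → ℕ := fun a => RQ (κx a)
  have hqT : PT fun x => qlen (z x) := PT.add (PT.add (PT.add (PT.mul (PT.const 4) (PT.pow hz 3))
    (PT.mul (PT.const 2) (PT.pow hz 2))) (PT.mul (PT.const 10) hz)) (PT.const 5)
  have hvT : PT fun x => v (z x) := by
    rw [hv]
    exact PT.plog cs (PT.mul (PT.const 2) hqT)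
  have hκT : PT fun x => κ (z x) := by
    rw [hκ]
    exact PT.mul (PT.succ (PT.add (PT.pow hvT cS) (PT.const cS))) (PT.plog c hqT)
  have hvxT : PT vx := Votes.pt_dbl PT.snd (hvT.comp PT.fst)
  have hκxT : PT κx := Votes.pt_dbl PT.snd (hκT.comp PT.fst)
  have hzT : PT fun a : Word × ℕ => z a.1 := hz.comp PT.fst
  have hPT : PT P := pt_PQ hvxT hκxT hzT
  have hkT : PT k0 := pt_kQ hvxT hκxT hzT
  have hMT : PT M := pt_MQ hvxT hκxT
  have hRT : PT R := pt_RQ hκxT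
  -- the bound
  obtain ⟨a, ha⟩ := cq_qbT c1 dg hvPL hκPL
  obtain ⟨km, hkm⟩ := hm.size_le
  obtain ⟨Z, hZ, hZz⟩ : ∃ Z : ℕ → ℕ, PB Z ∧ ∀ x : Word, z x ≤ Z x.length := by
    refine ⟨fun n => E * (n + (2 * n + 2) ^ km + 2), PB.mul (PB.const E) (PB.add (PB.add PB.id
      (PB.pow (PB.add (PB.mul (PB.const 2) PB.id) (PB.const 2)) km)) (PB.const 2)), fun x => ?_⟩
    refine Nat.mul_le_mul_left _ ?_
    have h1 := hkm x
    rw [sz_nat] at h1
    have h2 := sz_word_le x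
    have h3 : (sz x + 2) ^ km ≤ (2 * x.length + 2) ^ km := Nat.pow_le_pow_left (by omega) km
    omega
  obtain ⟨d, hd⟩ := QB.plog a (QB.of_pb hZ)
  have hT : ∀ x : Word, cqT c1 dg v κ (z x) ≤ 2 ^ plog d x.length := by
    intro x
    refine (ha (z x)).trans (Nat.pow_le_pow_right (by norm_num) ?_)
    exact (plog_mono a (hZz x)).trans (hd x.length)
  refine ⟨checkQ g gap m P k0 M R, d, pt_checkQ hg hgap hm hPT hkT hMT hRT, fun x N hN => ?_⟩
  have hTN : cqT c1 dg v κ (z x) ≤ N := (hT x).trans hN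
  obtain ⟨hT1, hT2, hT3, hT4, hT5⟩ := cq_le c1 dg v κ (z x)
  replace hT1 := hT1.trans hTN
  replace hT2 := hT2.trans hTN
  replace hT3 := hT3.trans hTN
  have evx : vx (x, N) = 2 ^ v (z x) := Votes.dbl_eq hT1
  have eκx : κx (x, N) = 2 ^ κ (z x) := Votes.dbl_eq hT2
  have eP : P (x, N) = PQ (2 ^ v (z x)) (2 ^ κ (z x)) (z x) := by
    show PQ (vx (x, N)) (κx (x, N)) (z x) = _
    rw [evx, eκx]
  have ek : k0 (x, N) = kQ (2 ^ v (z x)) (2 ^ κ (z x)) (z x) := by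
    show kQ (vx (x, N)) (κx (x, N)) (z x) = _
    rw [evx, eκx]
  have eM : M (x, N) = MQ (2 ^ v (z x)) (2 ^ κ (z x)) := by
    show MQ (vx (x, N)) (κx (x, N)) = _
    rw [evx, eκx]
  have eR : R (x, N) = RQ (2 ^ κ (z x)) := by
    show RQ (κx (x, N)) = _
    rw [eκx]
  have hprime : (P (x, N)).Prime := prime_PQ _ _ _
  have hP2 : P (x, N) < 2 ^ z x := by
    rw [eP]
    exact hE _ (hzE' x)
  have : NeZero (P (x, N)) := ⟨hprime.ne_zero⟩
  have hlen : ∀ n ≤ m x + 2, ∀ D : Itm (P (x, N)) (m x) n,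
      (quest x (P (x, N)) (itmL D)).length ≤ qlen (z x) := by
    intro n hn D
    have h1 := hzE x
    exact length_quest_le D hP2 hn (by omega) (by omega)
  have hsq : ∀ n ≤ m x + 2, ∀ D : Itm (P (x, N)) (m x) n,
      sz (quest x (P (x, N)) (itmL D)) ≤ 2 * qlen (z x) := by
    intro n hn D
    have h1 := hlen n hn D
    have h2 := sz_word_le (quest x (P (x, N)) (itmL D))
    omega
  have hgq : ∀ n ≤ m x + 2, ∀ D : Itm (P (x, N)) (m x) n,
      g (quest x (P (x, N)) (itmL D), N) = F (quest x (P (x, N)) (itmL D)) := by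
    intro n hn D
    refine hgF _ _ (le_trans (Nat.pow_le_pow_right (by norm_num) ?_) hT3)
    exact plog_mono c1 (hsq n hn D)
  have hsz : ∀ n ≤ m x + 2, ∀ D : Itm (P (x, N)) (m x) n,
      sz (F (quest x (P (x, N)) (itmL D))) ≤ 2 ^ v (z x) := by
    intro n hn D
    refine (hcs _).trans (Nat.pow_le_pow_right (by norm_num) ?_)
    rw [hv]
    exact plog_mono cs (hsq n hn D)
  have hp : ∀ n ≤ m x + 2, ∀ D : Itm (P (x, N)) (m x) n,
      (g (quest x (P (x, N)) (itmL D), N)).length ≤ 2 ^ v (z x) := by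
    intro n hn D
    rw [hgq n hn D]
    exact (length_le_sz _).trans (hsz n hn D)
  have hM0 : 0 < M (x, N) := Nat.succ_pos _
  have hR0 : 0 < R (x, N) := Nat.succ_pos _
  constructor
  · intro Y hY
    let BS : Finset (List Word) :=
      listsOf (finite_words S (2 ^ v (z x))).toFinset (plog c (qlen (z x)))
    have hBS : ∀ b ∈ BS, ∀ w ∈ b, w ∈ S := by
      intro b hb w hw
      have h1 := of_mem_listsOf _ _ _ hb w hw
      rw [Set.Finite.mem_toFinset] at h1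
      exact h1.1
    have hBS' : ∀ n ≤ m x + 2, ∀ D : Itm (P (x, N)) (m x) n,
        ∀ e ∈ g (quest x (P (x, N)) (itmL D), N), (∀ w ∈ e.2, w ∈ S) → e.2 ∈ BS := by
      intro n hn D e he hw
      rw [hgq n hn D] at he
      have h1 := hsz n hn D
      refine mem_listsOf _ _ _ (((hFs _).1 e he).trans (plog_mono c (hlen n hn D))) fun w hwe => ?_
      rw [Set.Finite.mem_toFinset]
      refine ⟨hw w hwe, ?_⟩
      have h2 := sz_mem_le he
      have h3 := sz_mem_le hwe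
      have h4 := length_le_sz w
      rw [sz_prod] at h2
      omega
    have hcard : 4 * BS.card ≤ R (x, N) := by
      have h1 := card_listsOf_le (finite_words S (2 ^ v (z x))).toFinset (plog c (qlen (z x)))
      have h2 := hcS (2 ^ v (z x))
      rw [Set.ncard_eq_toFinset_card _ (finite_words S (2 ^ v (z x)))] at h2
      have h3 : plog cS (2 ^ v (z x)) = v (z x) ^ cS + cS := by
        unfold plog
        rw [Nat.log_pow (by norm_num)]
      rw [h3] at h2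
      have h4 : (finite_words S (2 ^ v (z x))).toFinset.card + 1 ≤
          2 ^ (v (z x) ^ cS + cS + 1) := by
        rw [pow_succ]
        have h5 : 1 ≤ 2 ^ (v (z x) ^ cS + cS) := Nat.one_le_two_pow
        omega
      have h6 : BS.card ≤ 2 ^ κ (z x) := by
        refine h1.trans ((Nat.pow_le_pow_left h4 _).trans (le_of_eq ?_))
        rw [← pow_mul, hκ]
      rw [eR]
      unfold RQ
      omega
    have hTe := check_sound (f := fun q => g (q, N)) (gap := fun b => gap (b, N)) (m := m)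
      (P := fun x => P (x, N)) (k0 := fun x => k0 (x, N)) (M := fun x => M (x, N))
      (R := fun x => R (x, N)) x hprime S (TW Rel m x) BS (2 ^ v (z x))
      (fun n hn D => by
        rw [hgq n hn D, ← (hFs _).2]
        exact hAq x (P (x, N)) n D) hBS hBS' hp
      (fun n hn D => hgs x (P (x, N)) (k0 (x, N)) n N D (by
        refine le_trans (Nat.pow_le_pow_right (by norm_num) (plog_mono dg (?_ : _ ≤
          2 * z x + PQ (2 ^ v (z x)) (2 ^ κ (z x)) (z x) +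
            kQ (2 ^ v (z x)) (2 ^ κ (z x)) (z x) +
            nlen (PQ (2 ^ v (z x)) (2 ^ κ (z x)) (z x)) (z x) + 3))) ?_
        · rw [sz_pair, sz_pair, sz_pair, sz_nat, sz_nat, ← eP, ← ek]
          have h1 := sz_word_le x
          have h2 := cq_itm D (by omega)
          have h3 := hzE x
          have h4 : nlen (P (x, N)) (m x) ≤ nlen (P (x, N)) (z x) := cq_nlen le_rfl (by omega)
          omega
        · exact hT4.trans hTN)) hM0 hcard hR0 (by
        show 4 * (2 ^ v (z x) + 1) * P (x, N) ≤ k0 (x, N)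
        rw [eP, ek]
        exact le_rfl) (by
        show 4 * (2 ^ v (z x) + 1) * (m x + 1) ^ 2 ≤ P (x, N)
        rw [eP]
        exact prmQ_P' _ _ (by have := hzE x; omega)) Y hY
    rintro ⟨w, h1, h2⟩
    have h3 : (fun j : Fin (m x) => w.getD j.val false) ∈ TW Rel m x := by
      have h4 : List.ofFn (fun j : Fin (m x) => w.getD j.val false) = w := by
        refine List.ext_getElem (by simp [h1]) fun i h5 h6 => ?_
        simp [List.getD_eq_getElem?_getD, h6]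
      simp only [TW, Finset.mem_filter, Finset.mem_univ, true_and, h4]
      exact h2
    rw [hTe] at h3
    exact absurd h3 (Finset.notMem_empty _)
  · intro hno
    have hTe : TW Rel m x = ∅ := by
      refine Finset.eq_empty_of_forall_notMem fun w hw => hno ⟨List.ofFn w, by simp, ?_⟩
      simpa [TW] using hw
    obtain ⟨Y, h1, h2⟩ := check_complete (f := fun q => g (q, N)) (gap := fun b => gap (b, N))
      (m := m) (P := fun x => P (x, N)) (k0 := fun x => k0 (x, N)) (M := fun x => M (x, N))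
      (R := fun x => R (x, N)) x hprime (2 ^ v (z x)) hp
      (fun D => hgc x (P (x, N)) (k0 (x, N)) D N hTe) hM0 hR0 (by
        show 16 * ((2 ^ v (z x) : ℕ) : ℝ) ^ 2 / (1 / (R (x, N) : ℝ)) ^ 2 ≤ (M (x, N) : ℕ)
        rw [eR, eM]
        exact prmQ_M _ _) (by
        show 4 * (M (x, N) : ℕ) * (36 * ((2 ^ v (z x) : ℕ) : ℝ) ^ 2 / (1 / (R (x, N) : ℝ)) ^ 2 +
          1) ≤ (P (x, N) : ℕ)
        rw [eR, eM, eP]
        exact prmQ_P _ _ _)
    refine ⟨Y, h1.trans (le_trans ?_ (hT x)), h2⟩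
    show (m x + 3) * (M (x, N) * (nlen (P (x, N)) (m x) + 1) + 1) ≤ _
    rw [eM, eP]
    have h3 := hzE x
    have h4 : nlen (PQ (2 ^ v (z x)) (2 ^ κ (z x)) (z x)) (m x) ≤
        nlen (PQ (2 ^ v (z x)) (2 ^ κ (z x)) (z x)) (z x) := cq_nlen le_rfl (by omega)
    have h5 : (m x + 3) * (MQ (2 ^ v (z x)) (2 ^ κ (z x)) *
        (nlen (PQ (2 ^ v (z x)) (2 ^ κ (z x)) (z x)) (m x) + 1) + 1) ≤ (z x + 3) *
        (MQ (2 ^ v (z x)) (2 ^ κ (z x)) *
          (nlen (PQ (2 ^ v (z x)) (2 ^ κ (z x)) (z x)) (z x) + 1) + 1) :=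
      Nat.mul_le_mul (by omega) (Nat.add_le_add_right (Nat.mul_le_mul_left _
        (Nat.add_le_add_right h4 1)) 1)
    exact h5.trans hT5

end Pool.Agent.Lib.MP_634427_lc.Qp
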