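import Pool.Agent.Lib.MP_634427_lc.Qp.QT
import Pool.Agent.Lib.MP_634427_lc.Votes.Expand
import Pool.Agent.Lib.MP_634427_lc.Votes.Paths

/-!
# One vote for a reduction with polylogarithmically many queries and votes

`Votes.comp M w w` with the padded functions; `Votes.comp_spec`, `Votes.comp_bundles`,
`Votes.sc_expand`, as in the last part of `Votes.padCands_of_vote` (there with `n = 0`).

Let `stop', query', vote', out'` be the padded functions (`QT.pad`), `c` the exponent of the
reduction, `w x = plog c |x| + 1`, `v1 x` a polylogarithmic function such that `M1 = 2 ^ v1 x` is a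
sufficient padding for all `(x, l)`, `|l| ≤ w x` (sizes: `sz_pair`, `sz_word_le`) and all
`((x, l), b)`, `|b| ≤ w x`. The vote is `F x = Votes.comp M w w (fun a => stop' ((x, a), M1)) ..`
with `M = 2 ^ plog d (sz x)`, `M1 = Votes.dbl M (v1 x)`, `d` large.
-/

namespace Pool.Agent.Lib.MP_634427_lc

private lemma qc_answers {S : Set Word} {q q' : List Bool → Word} {w : ℕ}
    (h : ∀ a : List Bool, a.length ≤ w → q a = q' a) :
    ∀ j ≤ w, answers S (fun _ => false) q j = answers S (fun _ => false) q' j := by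
  classical
  intro j
  induction j with
  | zero => intro _; simp [answers]
  | succ j ih =>
    intro hj
    have h1 : (answers S (fun _ => false) q' j).length = j := Votes.length_answers_never S q' j
    rw [answers, answers, ih (by omega), h _ (by rw [h1]; omega)]

private lemma qc_pl_qb {F : ℕ → ℕ} (h : Qp.PL F) : Qp.QB F :=
  (Qp.QB.two_pow h).mono fun _ => Nat.lt_two_pow_self.le

/-- the number of queries and of votes, and the size of the bundles -/
private def qcW (c n : ℕ) : ℕ := plog c n + 1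

/-- the size of `(x, a)` -/
private def qcS (c n : ℕ) : ℕ := 2 * n + 2 * qcW c n + 1

/-- the exponent of the length of the votes -/
private def qcB (c c5 n : ℕ) : ℕ := plog c5 (qcS c n) + qcW c n + 4

private lemma pl_qcW (c : ℕ) : Qp.PL (qcW c) := (Qp.PL.plog c).add (Qp.PL.const 1)

private lemma qb_qcS (c : ℕ) : Qp.QB (qcS c) :=
  (((Qp.QB.const 2).mul Qp.QB.id).add ((Qp.QB.const 2).mul (qc_pl_qb (pl_qcW c)))).add
    (Qp.QB.const 1)

private lemma pl_qcB (c c5 : ℕ) : Qp.PL (qcB c c5) :=
  ((Qp.QB.plog c5 (qb_qcS c)).add (pl_qcW c)).add (Qp.PL.const 4)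

private lemma pl_nf (c c5 : ℕ) : Qp.PL fun n => Votes.nf (qcW c n) (qcB c c5 n) :=
  ((Qp.PL.const 1).add (pl_qcW c)).add ((pl_qcW c).mul (((Qp.PL.const 2).mul (pl_qcW c)).mul
    ((pl_qcB c c5).add (Qp.PL.const 1))))

/-- `A` is reducible to `S` by one vote in quasi-polynomial time with unit weights and bundles of
polylogarithmically many words. -/
def QOne (A S : Set Word) : Prop :=
  ∃ (F : Word → List (Bool × List Word)) (c : ℕ), QT F ∧ ∀ x,
    (∀ e ∈ F x, e.2.length ≤ plog c x.length) ∧ (x ∈ A ↔ 0 < balance S (F x))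

theorem qone_of_vote {A S : Set Word} (h : QVoteReducible A S) : QOne A S := by
  classical
  obtain ⟨stop, query, vote, out, c, hstop, hquery, hvote, hout, hred⟩ := h
  obtain ⟨gs, c1, hgs, hs⟩ := hstop.pad
  obtain ⟨gq, c2, hgq, hq⟩ := hquery.pad
  obtain ⟨gv, c3, hgv, hv⟩ := hvote.pad
  obtain ⟨go, c4, hgo, ho⟩ := hout.pad
  obtain ⟨c5, hsize⟩ := hvote.size_le
  have hE : Qp.PL fun n => qcB c c5 n * Votes.nf (qcW c n) (qcB c c5 n) +
      plog c1 (qcS c n) + plog c2 (qcS c n) + plog c3 (qcS c n) +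
      plog c4 (qcS c n + 2 * qcW c n + 1) :=
    (((((pl_qcB c c5).mul (pl_nf c c5)).add (Qp.QB.plog c1 (qb_qcS c))).add
      (Qp.QB.plog c2 (qb_qcS c))).add (Qp.QB.plog c3 (qb_qcS c))).add
      (Qp.QB.plog c4 (((qb_qcS c).add ((Qp.QB.const 2).mul (qc_pl_qb (pl_qcW c)))).add
        (Qp.QB.const 1)))
  obtain ⟨d, hd⟩ := hE
  obtain ⟨d', hd'⟩ := (pl_nf c c5).mul (pl_qcW c)
  let g : Word × ℕ → List (Bool × List Word) := fun p =>
    Votes.comp p.2 (qcW c p.1.length) (qcW c p.1.length) (fun a => gs ((p.1, a), p.2))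
      (fun a => gq ((p.1, a), p.2))
      (fun a => (gv ((p.1, a), p.2)).map (Votes.expand p.2 (qcW c p.1.length)))
      (fun a b => go (((p.1, a), b), p.2))
  have hwT : PT fun p : Word × ℕ => qcW c p.1.length := PT.succ (PT.plog c (PT.length PT.fst))
  have hin : PT fun p : (Word × ℕ) × List Bool => ((p.1.1, p.2), p.1.2) :=
    PT.pair (PT.pair (PT.fst' PT.fst) PT.snd) (PT.snd' PT.fst)
  have hg : PT g := by
    refine Votes.pt_comp (γ := Word × ℕ) (M := fun p => p.2) (n := fun p => qcW c p.1.length)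
      (w := fun p => qcW c p.1.length) (stop := fun p a => gs ((p.1, a), p.2))
      (query := fun p a => gq ((p.1, a), p.2))
      (votes := fun p a => (gv ((p.1, a), p.2)).map (Votes.expand p.2 (qcW c p.1.length)))
      (out := fun p a b => go (((p.1, a), b), p.2))
      PT.snd hwT hwT (hgs.comp hin) (hgq.comp hin) ?_ ?_
    · exact PT.map (f := fun (p : (Word × ℕ) × List Bool) v =>
        Votes.expand p.1.2 (qcW c p.1.1.length) v) (hgv.comp hin)
        (Votes.pt_expand (PT.snd' (PT.fst' PT.fst)) (hwT.comp (PT.fst' PT.fst)) PT.snd)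
    · exact hgo.comp (PT.pair (PT.pair (PT.pair (PT.fst' (PT.fst' PT.fst)) (PT.snd' PT.fst))
        PT.snd) (PT.snd' (PT.fst' PT.fst)))
  refine ⟨fun x => g (x, 2 ^ plog d (sz x)), d', ⟨g, d, hg, fun _ => rfl⟩, fun x => ?_⟩
  obtain ⟨M, hM⟩ : ∃ M, M = 2 ^ plog d (sz x) := ⟨_, rfl⟩
  obtain ⟨n, hn⟩ : ∃ n, n = x.length := ⟨_, rfl⟩
  obtain ⟨w, hw⟩ : ∃ w, w = qcW c n := ⟨_, rfl⟩
  obtain ⟨B, hB⟩ : ∃ B, B = qcB c c5 n := ⟨_, rfl⟩
  change (∀ e ∈ g (x, 2 ^ plog d (sz x)), e.2.length ≤ plog d' x.length) ∧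
    (x ∈ A ↔ 0 < balance S (g (x, 2 ^ plog d (sz x))))
  rw [← hM]
  have hgx : g (x, M) = Votes.comp M w w (fun a => gs ((x, a), M)) (fun a => gq ((x, a), M))
      (fun a => (gv ((x, a), M)).map (Votes.expand M w)) (fun a b => go (((x, a), b), M)) := by
    rw [hw, hn]
  rw [hgx]
  -- the padding is sufficient
  have hdn := hd n
  simp only at hdn
  rw [← hw, ← hB] at hdn
  have hpad : ∀ t, t ≤ plog d n → 2 ^ t ≤ M := by
    intro t ht
    rw [hM]
    refine Nat.pow_le_pow_right (by norm_num) (ht.trans (Qp.plog_mono d ?_))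
    rw [hn]
    exact length_le_sz x
  have hsx : ∀ a : List Bool, a.length ≤ w → sz ((x, a) : Word × List Bool) ≤ qcS c n := by
    intro a ha
    have h1 := sz_word_le x
    have h2 := sz_word_le a
    rw [sz_pair, qcS, ← hw]
    omega
  have hs' : ∀ a : List Bool, a.length ≤ w → gs ((x, a), M) = stop (x, a) := fun a ha =>
    hs _ M (hpad _ ((Qp.plog_mono c1 (hsx a ha)).trans (by omega)))
  have hq' : ∀ a : List Bool, a.length ≤ w → gq ((x, a), M) = query (x, a) := fun a ha =>
    hq _ M (hpad _ ((Qp.plog_mono c2 (hsx a ha)).trans (by omega)))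
  have hv' : ∀ a : List Bool, a.length ≤ w → gv ((x, a), M) = vote (x, a) := fun a ha =>
    hv _ M (hpad _ ((Qp.plog_mono c3 (hsx a ha)).trans (by omega)))
  have ho' : ∀ a b : List Bool, a.length ≤ w → b.length ≤ w →
      go (((x, a), b), M) = out ((x, a), b) := fun a b ha hb =>
    ho _ M (hpad _ ((Qp.plog_mono c4 (show sz (((x, a), b) : (Word × List Bool) × List Bool) ≤
      qcS c n + 2 * w + 1 by
        have h1 := hsx a ha
        have h2 := sz_word_le b
        rw [sz_pair]
        omega)).trans (by omega)))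
  have hMB : 2 ^ (B * Votes.nf w B) ≤ M := hpad _ (by omega)
  have hB2 : 4 ≤ B := by
    rw [hB, qcB]
    omega
  have hw1 : 1 ≤ w := by
    rw [hw, qcW]
    omega
  have hnf : w ≤ Votes.nf w B := by
    unfold Votes.nf
    omega
  have hBw : w ≤ B * Votes.nf w B := hnf.trans (Nat.le_mul_of_pos_left _ (by omega))
  have hX : ∀ a : List Bool, a.length ≤ w →
      ∀ v ∈ (gv ((x, a), M)).map (Votes.expand M w), 6 * v.length + 4 ≤ 2 ^ B := by
    intro a ha v hvm
    rw [hv' a ha] at hvm
    obtain ⟨v', hvm', rfl⟩ := List.mem_map.1 hvm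
    have h1 : v'.length ≤ 2 ^ plog c5 (qcS c n) :=
      ((length_le_sz v').trans (sz_mem_le hvm')).trans ((hsize (x, a)).trans
        (Nat.pow_le_pow_right (by norm_num) (Qp.plog_mono c5 (hsx a ha))))
    have h3 := Votes.length_expand_le M w v'
    have h4 : 1 ≤ 2 ^ w := Nat.one_le_two_pow
    have h5 : 1 ≤ 2 ^ plog c5 (qcS c n) := Nat.one_le_two_pow
    have h6 : 2 ^ B = (16 * 2 ^ plog c5 (qcS c n)) * 2 ^ w := by
      rw [hB, qcB, ← hw, pow_add, pow_add]
      ring
    calc 6 * (Votes.expand M w v').length + 4 ≤ 6 * (v'.length * 2 ^ w) + 4 * 2 ^ w := by omega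
      _ = (6 * v'.length + 4) * 2 ^ w := by ring
      _ ≤ (16 * 2 ^ plog c5 (qcS c n)) * 2 ^ w := Nat.mul_le_mul_right _ (by omega)
      _ = 2 ^ B := h6.symm
  constructor
  · -- the bundles
    intro e he
    obtain ⟨a, b, ha, hok, he⟩ := Votes.mem_comp he
    rw [Votes.okv_iff] at hok
    have h1 := (Votes.mem_prodC_length (Votes.width_mem_cfacs hw1 hok.2) e he).trans
      (Nat.mul_le_mul_right _ (Votes.length_cfacs_le (B := B) ha hok.1 (hX a ha)))
    refine h1.trans ?_
    have h2 := hd' n
    simp only at h2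
    rw [← hw, ← hB, hn] at h2
    exact h2
  · -- the vote decides
    obtain ⟨l, hl, hstopl, hvl, hbl, hcor⟩ := hred x
    rw [← hn] at hl hvl hbl
    have hTw : plog c n ≤ w := by
      rw [hw, qcW]
      omega
    have hlw : l.length ≤ w := by
      rw [hl]
      exact (length_answers_le _).trans hTw
    have hsh := Votes.answers_shift (S := S) (tr := []) (a := l) (by
      rw [List.nil_append]
      exact hl)
    simp only [List.nil_append] at hsh
    have ha₀ : l = answers S (fun _ => false) (fun a => gq ((x, a), M)) l.length := by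
      rw [qc_answers (q' := fun a => query (x, a)) (w := w) hq' l.length hlw]
      exact hsh.1
    have hval : Votes.valid (fun a => gs ((x, a), M)) l = true := by
      rw [Votes.valid_iff]
      refine ⟨by rw [hs' l hlw]; exact hstopl, fun j hj => ?_⟩
      rw [hs' _ (by rw [List.length_take]; omega)]
      exact hsh.2 j hj
    have hok : Votes.okv w ((gv ((x, l), M)).map (Votes.expand M w)) = true := by
      rw [Votes.okv_iff, List.length_map, hv' l hlw]
      refine ⟨hvl.trans hTw, fun v hvm e he => ?_⟩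
      obtain ⟨v', hvm', rfl⟩ := List.mem_map.1 hvm
      obtain ⟨e1, he1, heq⟩ := Votes.mem_expand he
      rw [heq]
      exact (hbl v' hvm' e1 he1).1.trans hTw
    have h5 := Votes.comp_spec S (M := M) (n := w) (w := w) (B := B)
      (stop := fun a => gs ((x, a), M)) (query := fun a => gq ((x, a), M))
      (votes := fun a => (gv ((x, a), M)).map (Votes.expand M w))
      (out := fun a b => go (((x, a), b), M)) (by omega) le_rfl hX hMB hlw ha₀ hval hok
    rw [← Votes.sc_eq_balance]
    refine Iff.symm (h5.trans ?_)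
    have h7 : ((gv ((x, l), M)).map (Votes.expand M w)).map
        (fun v => decide (0 < Votes.sc S v)) =
        (vote (x, l)).map fun v => decide (0 < votes S v) := by
      rw [hv' l hlw, List.map_map]
      refine List.map_congr_left fun v hvm => ?_
      have h8 := Votes.sc_expand S (M := M) (w := w)
        ((Nat.pow_le_pow_right (by norm_num) hBw).trans hMB) (v := v)
        fun e he => (hbl v hvm e he).2.trans hTw
      simp only [Function.comp]
      rw [h8]
    rw [h7, ho' _ _ hlw (by rw [List.length_map]; exact hvl.trans hTw)]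
    exact hcor.symm

end Pool.Agent.Lib.MP_634427_lc
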