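import Pool.Agent.Lib.MP_634427_lc.Qp.First

/-!
# NP in quasi-polynomial time from hard sets of quasi-polynomial density
-/

namespace Pool.Agent.Lib.MP_634427_lc.Qp

open Pool.Agent.Lib.MP_634427_lc

/-- If NP is in quasi-polynomial time then the empty set is hard. -/
theorem empty_hard (h : ∀ L, InNP L → InQP L) (A : Set Word) (hA : InNP A) :
    QVoteReducible A ∅ := by
  obtain ⟨f, hf, hfx⟩ := h A hA
  obtain ⟨g, c, hg, hgf⟩ := hf.pad
  refine ⟨fun _ => true, fun _ => [], fun _ => [], fun a => f a.1.1, 0, QT.of_pt (PT.const true),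
    QT.of_pt (PT.const []), QT.of_pt (PT.const []), ?_, fun x => ?_⟩
  · refine QT.of_pad (g := fun q => g (q.1.1.1, q.2)) c
      (hg.comp (PT.pair (PT.fst' (PT.fst' PT.fst)) PT.snd)) fun a M hM => ?_
    refine hgf a.1.1 M (le_trans (Nat.pow_le_pow_right (by norm_num) (plog_mono c ?_)) hM)
    rw [sz_prod a, sz_prod a.1]
    omega
  · refine ⟨_, rfl, rfl, Nat.zero_le _, fun v hv => ?_, hfx x⟩
    simp at hv

theorem quasi : (∃ S : Set Word, QDense S ∧ ∀ A : Set Word, InNP A → QVoteReducible A S) ↔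
    ∀ L : Set Word, InNP L → InQP L := by
  constructor
  · rintro ⟨S, hS, hard⟩ L hL
    exact inQP_of_qone S hS (fun A hA => qone_of_vote (hard A hA)) L hL
  · intro h
    exact ⟨∅, ⟨0, fun n => by simp⟩, fun A hA => empty_hard h A hA⟩

end Pool.Agent.Lib.MP_634427_lc.Qp
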