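import Pool.Agent.Lib.MP_634427_lc.Qp.Cert
import Pool.Agent.Lib.MP_634427_lc.Small.Canon

/-!
# The first witness is found in quasi-polynomial time

As `Small.inP_of_coNP` in `Small/Canon.lean`. The relation between `(x, M)` and `(u, Y)`, coded as in
`Small.inP_of_coNP`: `u` is a witness of `x` and `Y` is a certificate (`exists_certQ` for the NP set
of the pairs with an earlier witness, padding `M`) that there is no earlier witness; `QCands` with
the projection to `u`; the padding `M` and the padding of the candidate list are read off from one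
padding.
-/

namespace Pool.Agent.Lib.MP_634427_lc.Qp

open Pool.Agent.Lib.MP_634427_lc
open Pool.Agent.Lib.MP_634427_lc.Maj

/-- Decoding ignores what comes after a code. -/
private lemma fq_decode (t : BT) (w : Word) : decode (code t ++ w) = t := by
  simp only [decode, List.foldr_append, foldr_code]
  rfl

private lemma fq_dec : Small.HasDec (List (List Node)) := by
  have hdI : Small.HasDec IL := Small.hasDec_list (Small.hasDec_list Small.hasDec_nat)
  have hdL : Small.HasDec (List ℕ) := Small.hasDec_list Small.hasDec_nat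
  exact Small.hasDec_list (Small.hasDec_list
    (Small.hasDec_prod (Small.hasDec_prod hdI (Small.hasDec_prod (Small.hasDec_prod hdL hdL) hdI))
      hdL))

theorem inQP_of_qone (S : Set Word) (hS : QDense S) (hard : ∀ A, InNP A → QOne A S)
    (L : Set Word) (hL : InNP L) : InQP L := by
  classical
  obtain ⟨Rel, m, hRel, hm, hL⟩ := Small.exists_rel hL
  -- the question whether there is an earlier witness
  let p : (Word × Word) × Word → ℕ → Bool := fun c i =>
    c.1.2.getD i false && decide (c.2.take (i + 1) = c.1.2.take i ++ [false])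
  let G : (Word × Word) × Word → Bool := fun c =>
    Rel (c.1.1, c.2) && (List.range c.1.2.length).any (p c)
  have hp : PT fun q : ((Word × Word) × Word) × ℕ => p q.1 q.2 :=
    PT.and (PT.getLD PT.snd (PT.snd' (PT.fst' PT.fst)) (PT.const false))
      (PT.eqWord (PT.take (PT.succ PT.snd) (PT.snd' PT.fst))
        (PT.append (PT.take PT.snd (PT.snd' (PT.fst' PT.fst))) (PT.const [false])))
  have hG : PT G := PT.and (hRel.comp (PT.pair (PT.fst' PT.fst) PT.snd))
    (PT.any (PT.range (PT.length (PT.snd' PT.fst))) hp)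
  have hGB : ∀ x u w, G ((x, u), w) = true ↔ Rel (x, w) = true ∧ Small.Bef w u := by
    intro x u w
    simp only [G, p, Small.Bef, Bool.and_eq_true, List.any_eq_true, List.mem_range,
      decide_eq_true_eq]
  obtain ⟨B, hB, hB'⟩ := Small.exists_np_code G (fun a => m a.1) hG (hm.comp PT.fst)
  obtain ⟨RelB, mB, hRelB, hmB, hLB⟩ := Small.exists_rel hB
  obtain ⟨GB, dB, hGBT, hcert⟩ := exists_certQ S hS hard hRelB hmB
  obtain ⟨dY, hdY, hdYe⟩ := fq_dec
  have hmin : ∀ x u, (¬ ∃ w : Word, w.length = mB (code (enc (x, u))) ∧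
      RelB (code (enc (x, u)), w) = true) ↔
      ∀ w, w.length = m x → Rel (x, w) = true → ¬ Small.Bef w u := by
    intro x u
    rw [← hLB, hB' (x, u)]
    constructor
    · intro h w hw hR hBf
      exact h ⟨w, hw, (hGB x u w).2 ⟨hR, hBf⟩⟩
    · rintro h ⟨w, hw, hGw⟩
      obtain ⟨h1, h2⟩ := (hGB x u w).1 hGw
      exact h w hw h1 h2
  -- the length of the questions
  let ql : Word → ℕ := fun x => 2 * (2 * x.length + 2 * m x + 3) + 1
  have hql : PT ql := PT.add (PT.mul (PT.const 2) (PT.add (PT.add (PT.mul (PT.const 2)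
    (PT.length PT.id)) (PT.mul (PT.const 2) hm)) (PT.const 3))) (PT.const 1)
  have hlen : ∀ x u : Word, u.length = m x → (code (enc (x, u))).length ≤ ql x := by
    intro x u hu
    rw [length_code]
    have h3 : (enc (x, u)).size = sz x + sz u + 1 := rfl
    have h4 := sz_word_le x
    have h5 := sz_word_le u
    show _ ≤ 2 * (2 * x.length + 2 * m x + 3) + 1
    omega
  -- the relation
  let z : (Word × ℕ) × Word → Word := fun c => code (enc (c.1.1, c.2.take (m c.1.1)))
  have henc : PT (fun a : Word × Word => (enc a : BT)) := ⟨_, .id, fun _ => rfl⟩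
  have hmc : PT fun c : (Word × ℕ) × Word => m c.1.1 := hm.comp (PT.fst' PT.fst)
  have hz : PT z := PT.code (henc.comp (PT.pair (PT.fst' PT.fst) (PT.take hmc PT.snd)))
  let Rel' : (Word × ℕ) × Word → Bool := fun c => Rel (c.1.1, c.2.take (m c.1.1)) &&
    GB ((z c, c.1.2), dY (decode (c.2.drop (m c.1.1))))
  have hRel' : PT Rel' := PT.and
    (hRel.comp (PT.pair (PT.fst' PT.fst) (PT.take hmc PT.snd)))
    (hGBT.comp (PT.pair (PT.pair hz (PT.snd' PT.fst))
      (hdY.comp (PT.decode (PT.drop hmc PT.snd)))))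
  obtain ⟨cand, d, hcand, hc⟩ := qcands_of_qone S hS hard Rel' (fun c => c.2.take (m c.1.1))
    (fun a => m a.1 + (2 * a.2 + 1)) (fun a => m a.1) hRel' (PT.take hmc PT.snd)
    (PT.add (hm.comp PT.fst) (PT.add (PT.mul (PT.const 2) PT.snd) (PT.const 1))) (hm.comp PT.fst)
  -- the two paddings
  let v : Word → ℕ := fun x => plog dB (ql x)
  have hv : PT v := PT.plog dB hql
  let g : Word × ℕ → Bool := fun b => (cand ((b.1, Votes.dbl b.2 (v b.1)), b.2)).any fun u =>
    decide (u.length = m b.1) && Rel (b.1, u)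
  have hg : PT g := PT.any
    (p := fun (b : Word × ℕ) (u : Word) => decide (u.length = m b.1) && Rel (b.1, u))
    (hcand.comp (PT.pair (PT.pair PT.fst (Votes.pt_dbl PT.snd (hv.comp PT.fst))) PT.snd))
    (PT.and (PT.eqNat (PT.length PT.snd) (hm.comp (PT.fst' PT.fst)))
      (hRel.comp (PT.pair (PT.fst' PT.fst) PT.snd)))
  -- the bound
  obtain ⟨km, hkm⟩ := hm.size_le
  let qlb : ℕ → ℕ := fun s => 2 * (2 * s + 2 * (s + 2) ^ km + 3) + 1
  have hqlb : PB qlb := PB.add (PB.mul (PB.const 2) (PB.add (PB.add (PB.mul (PB.const 2) PB.id)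
    (PB.mul (PB.const 2) (PB.pow (PB.add PB.id (PB.const 2)) km))) (PB.const 3))) (PB.const 1)
  have hqle : ∀ x : Word, ql x ≤ qlb (sz x) := by
    intro x
    have h1 := hkm x
    rw [sz_nat] at h1
    have h2 : x.length ≤ sz x := length_le_sz x
    show 2 * (2 * x.length + 2 * m x + 3) + 1 ≤ 2 * (2 * sz x + 2 * (sz x + 2) ^ km + 3) + 1
    omega
  have hvb : PL fun s => plog dB (qlb s) := QB.plog dB (QB.of_pb hqlb)
  obtain ⟨e, he⟩ : QB fun s => 2 ^ plog dB (qlb s) +
      2 ^ plog d (s + 2 ^ plog dB (qlb s) + 1) :=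
    (QB.two_pow hvb).add (QB.two_pow (QB.plog d ((QB.id.add (QB.two_pow hvb)).add (QB.const 1))))
  refine ⟨fun x => decide (x ∈ L), QT.of_pad (g := g) e hg fun x N hN => ?_, fun x => by simp⟩
  have hN' : 2 ^ plog dB (qlb (sz x)) + 2 ^ plog d (sz x + 2 ^ plog dB (qlb (sz x)) + 1) ≤ N :=
    (he (sz x)).trans hN
  have hvx : v x ≤ plog dB (qlb (sz x)) := plog_mono dB (hqle x)
  have hv2 : 2 ^ v x ≤ 2 ^ plog dB (qlb (sz x)) := Nat.pow_le_pow_right (by norm_num) hvx
  have hdbl : Votes.dbl N (v x) = 2 ^ v x :=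
    Votes.dbl_eq ((hv2.trans (Nat.le_add_right _ _)).trans hN')
  have hpadd : 2 ^ plog d (sz (x, 2 ^ v x)) ≤ N := by
    have h1 : sz (x, 2 ^ v x) ≤ sz x + 2 ^ plog dB (qlb (sz x)) + 1 := by
      rw [sz_pair, sz_nat]
      omega
    exact (Nat.pow_le_pow_right (by norm_num) (plog_mono d h1)).trans
      ((Nat.le_add_left _ _).trans hN')
  have hcx : ∀ u : Word, u.length = m x →
      2 ^ plog dB (code (enc (x, u))).length ≤ 2 ^ v x := fun u hu =>
    Nat.pow_le_pow_right (by norm_num) (plog_mono dB (hlen x u hu))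
  rw [Bool.eq_iff_iff, decide_eq_true_iff, hL x]
  show (List.any (cand ((x, Votes.dbl N (v x)), N)) fun u =>
    decide (u.length = m x) && Rel (x, u)) = true ↔ _
  rw [hdbl]
  simp only [List.any_eq_true, Bool.and_eq_true, decide_eq_true_eq]
  constructor
  · rintro ⟨u, -, hu, hR⟩
    exact ⟨u, hu, hR⟩
  · intro h
    obtain ⟨u, hu, hPu, hfirst⟩ := Small.exists_first (m x) (fun w => Rel (x, w) = true) h
    refine ⟨u, hc (x, 2 ^ v x) N u hpadd hu ?_ ?_, hu, hPu⟩
    · obtain ⟨Y, hY, hGY⟩ := (hcert (code (enc (x, u))) (2 ^ v x) (hcx u hu)).2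
        ((hmin x u).2 hfirst)
      have h1 := hcx u hu
      have h0 : (code (enc Y)).length = 2 * sz Y + 1 := length_code _
      refine ⟨u ++ (code (enc Y) ++ List.replicate (2 * 2 ^ v x + 1 - (code (enc Y)).length) false),
        ?_, ?_⟩
      · simp only [List.length_append, List.length_replicate]
        omega
      · have h2 : (u ++ (code (enc Y) ++ List.replicate (2 * 2 ^ v x + 1 -
            (code (enc Y)).length) false)).take (m x) = u := by
          rw [← hu, List.take_left']
          rfl
        have h3 : (u ++ (code (enc Y) ++ List.replicate (2 * 2 ^ v x + 1 -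
            (code (enc Y)).length) false)).drop (m x) = code (enc Y) ++
              List.replicate (2 * 2 ^ v x + 1 - (code (enc Y)).length) false := by
          rw [← hu, List.drop_left']
          rfl
        simp only [Rel', z, h2, h3, Bool.and_eq_true]
        refine ⟨hPu, ?_⟩
        rw [fq_decode, hdYe]
        exact hGY
    · intro W hW hRW
      simp only [Rel', Bool.and_eq_true] at hRW
      have hWl : (W.take (m x)).length = m x := by
        rw [List.length_take, hW]
        exact min_eq_left (Nat.le_add_right _ _)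
      have h3 := (hcert (code (enc (x, W.take (m x)))) (2 ^ v x) (hcx _ hWl)).1 _ hRW.2
      have h4 := (hmin x (W.take (m x))).1 h3
      rcases Small.bef_total (u := W.take (m x)) (u' := u) (by rw [hWl, hu]) with h5 | h5 | h5
      · exact h5
      · exact absurd h5 (hfirst _ hWl hRW.1)
      · exact absurd h5 (h4 _ hu hPu)

end Pool.Agent.Lib.MP_634427_lc.Qp
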