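import Pool.Agent.Lib.MP_634427_lc.Qp.Cands
import Pool.Agent.Lib.MP_634427_lc.Maj.GapRel

/-!
# The padded gap test

As `Maj.exists_gap` in `Maj/Gap.lean`.
-/

namespace Pool.Agent.Lib.MP_634427_lc.Qp

open Pool.Agent.Lib.MP_634427_lc
open Pool.Agent.Lib.MP_634427_lc.Maj

/-- The gap test with padding. -/
def gapQ (Rel : Word × Word → Bool) (m : Word → ℕ)
    (cand : ((Word × ℕ) × (ℕ × IL)) × ℕ → List Word) (a : ((Word × (ℕ × ℕ)) × IL) × ℕ) : Bool :=
  (List.range a.1.1.2.2).all fun k =>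
    (cand (((a.1.1.1, a.1.1.2.1), (k + 1, a.1.2)), a.2)).all fun u =>
      !(decide (u.length = m a.1.1.1) && Rel (a.1.1.1, u))

private lemma pt_gapQ {Rel : Word × Word → Bool} {m : Word → ℕ} (hRel : PT Rel) (hm : PT m)
    {cand : ((Word × ℕ) × (ℕ × IL)) × ℕ → List Word} (hc : PT cand) :
    PT (gapQ Rel m cand) := by
  unfold gapQ
  refine PT.all (PT.range (PT.snd' (PT.snd' (PT.fst' PT.fst)))) ?_
  refine PT.all (hc.comp (PT.pair (PT.pair (PT.pair (PT.fst' (PT.fst' (PT.fst' PT.fst)))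
    (PT.fst' (PT.snd' (PT.fst' (PT.fst' PT.fst)))))
    (PT.pair (PT.succ PT.snd) (PT.snd' (PT.fst' PT.fst)))) (PT.snd' PT.fst))) ?_
  refine PT.not (PT.and (PT.eqNat (PT.length PT.snd)
    (hm.comp (PT.fst' (PT.fst' (PT.fst' (PT.fst' PT.fst))))))
    (hRel.comp (PT.pair (PT.fst' (PT.fst' (PT.fst' (PT.fst' PT.fst)))) PT.snd)))

private lemma plog_mono_gapQ (d : ℕ) {a b : ℕ} (h : a ≤ b) : plog d a ≤ plog d b := by
  unfold plog
  exact Nat.add_le_add_right (Nat.pow_le_pow_left (Nat.log_mono_right h) d) d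

private lemma size_gapQ (x : Word) (P k k0 : ℕ) (D : IL) (h : k + 1 ≤ k0) :
    sz (((x, P), (k + 1, D)) : (Word × ℕ) × (ℕ × IL)) ≤
      sz (((x, (P, k0)), D) : (Word × (ℕ × ℕ)) × IL) := by
  simp only [sz_pair, sz_nat]
  omega

theorem exists_gapQ (hP : QCands) {Rel : Word × Word → Bool} {m : Word → ℕ} (hRel : PT Rel)
    (hm : PT m) : ∃ (gap : ((Word × (ℕ × ℕ)) × IL) × ℕ → Bool) (d : ℕ), PT gap ∧
      (∀ (x : Word) (P k0 n M : ℕ) [NeZero P] (D : Itm P (m x) n),
        2 ^ plog d (sz ((x, (P, k0)), itmL D)) ≤ M →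
        gap (((x, (P, k0)), itmL D), M) = true → (∃ w ∈ TW Rel m x, Sat D w) →
          k0 < ((TW Rel m x).filter fun w => Sat D w).card) ∧
      ∀ x P k0 D M, TW Rel m x = ∅ → gap (((x, (P, k0)), D), M) = true := by
  obtain ⟨cand, d, hcand, hc⟩ := hP (gapRel Rel m) (fun p => p.2.take (m p.1.1.1))
    (fun a => a.2.1 * m a.1.1) (fun a => m a.1.1) (pt_gapRel hRel hm)
    (PT.take (hm.comp (PT.fst' (PT.fst' PT.fst))) PT.snd)
    (PT.mul (PT.fst' PT.snd) (hm.comp (PT.fst' PT.fst))) (hm.comp (PT.fst' PT.fst))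
  refine ⟨gapQ Rel m cand, d, pt_gapQ hRel hm hcand, ?_, ?_⟩
  · intro x P k0 n M _ D hM hg hex
    by_contra hcon
    push Not at hcon
    obtain ⟨w, hw, hsat⟩ := hex
    have hpos : 1 ≤ ((TW Rel m x).filter fun w => Sat D w).card :=
      Finset.card_pos.2 ⟨w, Finset.mem_filter.2 ⟨hw, hsat⟩⟩
    obtain ⟨k, hk⟩ : ∃ k, ((TW Rel m x).filter fun w => Sat D w).card = k + 1 :=
      ⟨_, (Nat.sub_add_cancel hpos).symm⟩
    obtain ⟨W, hWl, hW⟩ := gapRel_exists D hk
    have hlen : (W.take (m x)).length = m x := by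
      rw [List.length_take, hWl]
      refine min_eq_left ?_
      calc m x = 1 * m x := (one_mul _).symm
        _ ≤ (k + 1) * m x := Nat.mul_le_mul_right _ (by omega)
    have hM' : 2 ^ plog d (sz (((x, P), (k + 1, itmL D)) : (Word × ℕ) × (ℕ × IL))) ≤ M :=
      (Nat.pow_le_pow_right (by norm_num) (plog_mono_gapQ d
        (size_gapQ x P k k0 (itmL D) (by omega)))).trans hM
    have hmem := hc ((x, P), (k + 1, itmL D)) M (W.take (m x)) hM' hlen ⟨W, hWl, hW⟩
      fun W' hl' hW' => by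
        have h1 := gapRel_unique D hk hWl hl' hW hW'
        show W'.take (m x) = W.take (m x)
        rw [h1]
    have hR : Rel (x, W.take (m x)) = true := by
      have h1 := hW
      unfold gapRel at h1
      rw [Bool.and_eq_true] at h1
      have h2 := List.all_eq_true.1 h1.1 0 (List.mem_range.2 (by simp))
      rw [Bool.and_eq_true] at h2
      have h3 := h2.1
      simp only [Maj.blk, Nat.zero_mul, List.drop_zero] at h3
      exact h3
    unfold gapQ at hg
    have h1 := List.all_eq_true.1 hg k (List.mem_range.2 (by simp only; omega))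
    have h2 := List.all_eq_true.1 h1 _ hmem
    simp only [hlen, decide_true, Bool.true_and, hR, Bool.not_true] at h2
    exact absurd h2 (by simp)
  · intro x P k0 D M hT
    unfold gapQ
    refine List.all_eq_true.2 fun k _ => List.all_eq_true.2 fun u _ => ?_
    simp only
    by_contra hcon
    rw [Bool.not_eq_true, Bool.not_eq_false', Bool.and_eq_true, decide_eq_true_eq] at hcon
    obtain ⟨hl, hR⟩ := hcon
    have h1 : (fun i : Fin (m x) => u.get ⟨i.val, by rw [hl]; exact i.2⟩) ∈ TW Rel m x := by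
      unfold TW
      rw [Finset.mem_filter]
      refine ⟨Finset.mem_univ _, ?_⟩
      have h2 : (List.ofFn fun i : Fin (m x) => u.get ⟨i.val, by rw [hl]; exact i.2⟩) = u := by
        apply List.ext_get
        · rw [List.length_ofFn, hl]
        · intro n h1 h2
          simp
      rw [h2]
      exact hR
    rw [hT] at h1
    exact absurd h1 (Finset.notMem_empty _)

end Pool.Agent.Lib.MP_634427_lc.Qp
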