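import Pool.Agent.Lib.MP_634427_lc.Qp.Model
import Pool.Agent.Lib.MP_634427_lc.Poly

/-!
# Polylogarithmic and quasi-polynomial bounds

`pow_le_pow_add e n : (n + 2) ^ e ≤ n ^ (3 ^ e) + 3 ^ e`.
-/

namespace Pool.Agent.Lib.MP_634427_lc.Qp

open Pool.Agent.Lib.MP_634427_lc

private theorem lg_add_le (e n : ℕ) : (n + 2) ^ e ≤ n ^ (3 ^ e) + 3 ^ e := by
  rcases Nat.lt_or_ge n 2 with h | h
  · have : (n + 2) ^ e ≤ 3 ^ e := Nat.pow_le_pow_left (by omega) e
    omega
  · have h1 : n + 2 ≤ n ^ 2 := by nlinarith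
    have h2 : (n + 2) ^ e ≤ (n ^ 2) ^ e := Nat.pow_le_pow_left h1 e
    have h3 : 2 * e ≤ 3 ^ e := by
      clear h2
      induction e with
      | zero => simp
      | succ e ih =>
        have h4 : 1 ≤ 3 ^ e := Nat.one_le_pow _ _ (by omega)
        rw [pow_succ]
        omega
    rw [← pow_mul] at h2
    have h4 : n ^ (2 * e) ≤ n ^ (3 ^ e) := Nat.pow_le_pow_right (by omega) h3
    omega

private theorem lg_pb (c : ℕ) : PB fun l => l ^ c + c := (PB.id.pow c).add (PB.const c)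

private theorem lg_large (c : ℕ) : ∃ l₀, ∀ l, l₀ ≤ l → l ^ c + c < 2 ^ l := by
  have h1 := tendsto_pow_const_div_const_pow_of_one_lt (c + 1) (r := (2 : ℝ)) (by norm_num)
  have h2 := h1.eventually (gt_mem_nhds (show (0 : ℝ) < 1 / 2 by norm_num))
  rw [Filter.eventually_atTop] at h2
  obtain ⟨l₀, h3⟩ := h2
  refine ⟨l₀ + c + 1, fun l hl => ?_⟩
  have h4 := h3 l (by omega)
  have h5 : (0 : ℝ) < 2 ^ l := by positivity
  rw [div_lt_iff₀ h5] at h4
  have h6 : (2 : ℝ) * (l : ℝ) ^ (c + 1) < 2 ^ l := by linarith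
  have h7 : 2 * l ^ (c + 1) < 2 ^ l := by exact_mod_cast h6
  have h8 : l ^ c ≤ l ^ (c + 1) := Nat.pow_le_pow_right (by omega) (by omega)
  have h9 : c ≤ l ^ (c + 1) := by
    calc c ≤ l ^ 1 := by rw [pow_one]; omega
      _ ≤ l ^ (c + 1) := Nat.pow_le_pow_right (by omega) (by omega)
  omega

theorem plog_mono (c : ℕ) {n n' : ℕ} (h : n ≤ n') : plog c n ≤ plog c n' := by
  unfold plog
  exact Nat.add_le_add_right (Nat.pow_le_pow_left (Nat.log_mono_right h) c) c

theorem plog_mono_left {c d : ℕ} (h : c ≤ d) (n : ℕ) : plog c n ≤ plog d n := by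
  unfold plog
  rcases Nat.eq_zero_or_pos (Nat.log 2 n) with h0 | h0
  · rw [h0]
    rcases Nat.eq_zero_or_pos c with rfl | hc
    · rcases Nat.eq_zero_or_pos d with rfl | hd
      · exact le_rfl
      · rw [pow_zero, zero_pow hd.ne']
        omega
    · rw [zero_pow hc.ne', zero_pow (show d ≠ 0 by omega)]
      omega
  · exact Nat.add_le_add (Nat.pow_le_pow_right h0 h) h

/-- `F` is at most polylogarithmic. -/
def PL (F : ℕ → ℕ) : Prop := ∃ c, ∀ n, F n ≤ plog c n

/-- `F` is at most quasi-polynomial. -/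
def QB (F : ℕ → ℕ) : Prop := ∃ c, ∀ n, F n ≤ 2 ^ plog c n

namespace PL

variable {F G : ℕ → ℕ}

theorem mono (hG : PL G) (h : ∀ n, F n ≤ G n) : PL F :=
  ⟨hG.choose, fun n => (h n).trans (hG.choose_spec n)⟩

/-- A polynomial of the logarithm. -/
theorem of_log (hG : PB G) (h : ∀ n, F n ≤ G (Nat.log 2 n)) : PL F := by
  obtain ⟨c, hc⟩ := hG
  exact ⟨3 ^ c, fun n => ((h n).trans (hc _)).trans (lg_add_le c _)⟩

theorem const (c : ℕ) : PL fun _ => c := by
  exact ⟨c, fun n => Nat.le_add_left c _⟩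

theorem log : PL fun n => Nat.log 2 n := by
  refine of_log PB.id fun n => le_rfl

theorem plog (c : ℕ) : PL fun n => plog c n := ⟨c, fun _ => le_rfl⟩

theorem add (hF : PL F) (hG : PL G) : PL fun n => F n + G n := by
  obtain ⟨a, ha⟩ := hF
  obtain ⟨b, hb⟩ := hG
  exact of_log ((lg_pb a).add (lg_pb b)) fun n => Nat.add_le_add (ha n) (hb n)

theorem mul (hF : PL F) (hG : PL G) : PL fun n => F n * G n := by
  obtain ⟨a, ha⟩ := hF
  obtain ⟨b, hb⟩ := hG
  exact of_log ((lg_pb a).mul (lg_pb b)) fun n => Nat.mul_le_mul (ha n) (hb n)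

theorem pow (hF : PL F) (c : ℕ) : PL fun n => F n ^ c := by
  obtain ⟨a, ha⟩ := hF
  exact of_log ((lg_pb a).pow c) fun n => Nat.pow_le_pow_left (ha n) c

/-- A polynomial of a polylogarithmic function. -/
theorem comp (hF : PL F) (hG : PB G) (hm : Monotone G) : PL fun n => G (F n) := by
  obtain ⟨c, hc⟩ := hG
  exact ((hF.add (const 2)).pow c).mono fun n => hc (F n)

end PL

namespace QB

variable {F G : ℕ → ℕ}

theorem mono (hG : QB G) (h : ∀ n, F n ≤ G n) : QB F :=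
  ⟨hG.choose, fun n => (h n).trans (hG.choose_spec n)⟩

/-- The logarithm of a quasi-polynomial bound. -/
theorem log (hG : QB G) : PL fun n => Nat.log 2 (G n) := by
  obtain ⟨c, hc⟩ := hG
  refine ⟨c, fun n => ?_⟩
  have h1 := Nat.log_mono_right (b := 2) (hc n)
  rwa [Nat.log_pow (by norm_num)] at h1

theorem plog (c : ℕ) (hG : QB G) : PL fun n => MP_634427_lc.plog c (G n) := by
  exact (hG.log.pow c).add (PL.const c)

theorem two_pow (hF : PL F) : QB fun n => 2 ^ F n := by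
  obtain ⟨c, hc⟩ := hF
  exact ⟨c, fun n => Nat.pow_le_pow_right (by norm_num) (hc n)⟩

theorem of_pb (hF : PB F) : QB F := by
  obtain ⟨c, hc⟩ := hF
  refine (two_pow ((PL.log.add (PL.const 2)).mul (PL.const c))).mono fun n => (hc n).trans ?_
  rw [pow_mul]
  refine Nat.pow_le_pow_left ?_ c
  have h1 : n < 2 ^ (Nat.log 2 n + 1) := Nat.lt_pow_succ_log_self (by norm_num) n
  have h2 : 2 ^ (Nat.log 2 n + 2) = 2 * 2 ^ (Nat.log 2 n + 1) := by ring
  omega

theorem const (c : ℕ) : QB fun _ => c := of_pb (PB.const c)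

theorem id : QB fun n => n := of_pb PB.id

theorem add (hF : QB F) (hG : QB G) : QB fun n => F n + G n := by
  obtain ⟨a, ha⟩ := hF
  obtain ⟨b, hb⟩ := hG
  refine (two_pow (((PL.plog a).add (PL.plog b)).add (PL.const 1))).mono fun n => ?_
  refine (Nat.add_le_add (ha n) (hb n)).trans ?_
  have h1 : 2 ^ MP_634427_lc.plog a n ≤
      2 ^ (MP_634427_lc.plog a n + MP_634427_lc.plog b n) :=
    Nat.pow_le_pow_right (by norm_num) (Nat.le_add_right _ _)
  have h2 : 2 ^ MP_634427_lc.plog b n ≤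
      2 ^ (MP_634427_lc.plog a n + MP_634427_lc.plog b n) :=
    Nat.pow_le_pow_right (by norm_num) (Nat.le_add_left _ _)
  rw [pow_succ]
  omega

theorem mul (hF : QB F) (hG : QB G) : QB fun n => F n * G n := by
  obtain ⟨a, ha⟩ := hF
  obtain ⟨b, hb⟩ := hG
  refine (two_pow ((PL.plog a).add (PL.plog b))).mono fun n => ?_
  rw [pow_add]
  exact Nat.mul_le_mul (ha n) (hb n)

theorem pow (hF : QB F) (c : ℕ) : QB fun n => F n ^ c := by
  obtain ⟨a, ha⟩ := hF
  refine (two_pow ((PL.plog a).mul (PL.const c))).mono fun n => ?_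
  rw [pow_mul]
  exact Nat.pow_le_pow_left (ha n) c

/-- Composition. -/
theorem comp (hF : QB F) (hG : QB G) : QB fun n => F (G n) := by
  obtain ⟨c, hc⟩ := hF
  exact (two_pow (hG.plog c)).mono fun n => hc (G n)

/-- A quasi-polynomial function is below `2 ^ z` for large `z`. -/
theorem lt_two_pow (hF : QB F) : ∃ E, 1 ≤ E ∧ ∀ z, E ≤ z → F z < 2 ^ z := by
  obtain ⟨c, hc⟩ := hF
  obtain ⟨l₀, hl⟩ := lg_large c
  refine ⟨2 ^ l₀, Nat.one_le_two_pow, fun z hz => (hc z).trans_lt ?_⟩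
  have h0 : z ≠ 0 := by
    have := Nat.two_pow_pos l₀
    omega
  have h1 : l₀ ≤ Nat.log 2 z := Nat.le_log_of_pow_le (by norm_num) hz
  have h2 := hl _ h1
  have h3 : 2 ^ Nat.log 2 z ≤ z := Nat.pow_log_le_self 2 h0
  exact Nat.pow_lt_pow_right (by norm_num) (h2.trans_le h3)

end QB

end Pool.Agent.Lib.MP_634427_lc.Qp
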