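import Pool.Agent.Lib.MP_634427_lc.LT.WModel
import Pool.Agent.Lib.MP_634427_lc.Typed

/-!
# Quasi-polynomial time, and reductions with polylogarithmically many queries and votes
-/

namespace Pool.Agent.Lib.MP_634427_lc

/-- A polylogarithmic bound. -/
def plog (c n : ℕ) : ℕ := Nat.log 2 n ^ c + c

/-- `f` can be computed in quasi-polynomial time: there is a polynomial-time function `g` such that
`f a` is the value of `g` for `a` and the number `2 ^ ((log |a|) ^ c + c)` in unary, `|a|` being the
size of `a`. -/
def QT {α β : Type} [Enc α] [Enc β] (f : α → β) : Prop :=
  ∃ (g : α × ℕ → β) (c : ℕ), PT g ∧ ∀ a, f a = g (a, 2 ^ plog c (sz a))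

/-- `L` can be decided in quasi-polynomial time. -/
def InQP (L : Set Word) : Prop := ∃ f : Word → Bool, QT f ∧ ∀ x, x ∈ L ↔ f x = true

/-- `S` has at most `2 ^ ((log n) ^ c + c)` words of length at most `n`. -/
def QDense (S : Set Word) : Prop := ∃ c, ∀ n, {w ∈ S | w.length ≤ n}.ncard ≤ 2 ^ plog c n

/-- `A` is reducible to `S` by a reduction in quasi-polynomial time with polylogarithmically many
queries and votes. Let `T = (log |x|) ^ c + c`. From the input `x` and the list of the answers
received so far one computes in quasi-polynomial time whether the adaptive phase stops (`stop`), the
next query (`query`), and, when it stops, a list of votes (`vote`). With oracle `S` the adaptive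
phase stops after at most `T` queries; let `l` be the list of the answers. Then `x ∈ A` if and only
if the evaluator `out`, a function in quasi-polynomial time, accepts `x`, `l` and the list of the
outcomes of the votes. There are at most `T` votes. A vote is a list of bundles of words with integer
weights in binary (a sign and a list of digits, the least significant digit first), and it is won if
the sum of the weights of the bundles that lie entirely in `S` is positive. A bundle has at most `T`
words, and its weight has at most `T` digits, so its absolute value is less than `2 ^ T`; the number
of the bundles of a vote and the lengths of the words are not restricted any further (they are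
quasi-polynomial, since `vote` is computed in quasi-polynomial time). -/
def QVoteReducible (A S : Set Word) : Prop :=
  ∃ (stop : Word × List Bool → Bool) (query : Word × List Bool → Word)
    (vote : Word × List Bool → List (List ((Bool × List Bool) × List Word)))
    (out : (Word × List Bool) × List Bool → Bool) (c : ℕ),
    QT stop ∧ QT query ∧ QT vote ∧ QT out ∧
    ∀ x, ∃ l, l = answers S (fun l => stop (x, l)) (fun l => query (x, l)) (plog c x.length) ∧
      stop (x, l) = true ∧ (vote (x, l)).length ≤ plog c x.length ∧
      (∀ v ∈ vote (x, l), ∀ e ∈ v, e.2.length ≤ plog c x.length ∧
        e.1.2.length ≤ plog c x.length) ∧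
      (x ∈ A ↔ out ((x, l), (vote (x, l)).map fun v => decide (0 < votes S v)) = true)

end Pool.Agent.Lib.MP_634427_lc
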