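import Pool.Agent.Lib.MP_634427_lc.Qp.Log
import Pool.Agent.Lib.MP_634427_lc.Votes.CompilePT

/-!
# Functions in quasi-polynomial time

`Votes.dbl M j = 2 ^ j` if `2 ^ j ≤ M` (`Votes.dbl_eq`), `Votes.pt_dbl`.
-/

namespace Pool.Agent.Lib.MP_634427_lc

variable {α β γ : Type} [Enc α] [Enc β] [Enc γ]

private theorem log2_lg (n : ℕ) :
    (if (lg n).2 ≤ n then (lg n).1 else (lg n).1 - 1) = Nat.log 2 n := by
  have h1 := lg_two_pow n
  have h2 := lg_le n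
  have h3 := le_lg n
  rw [h1]
  rcases Nat.lt_or_ge n (2 ^ (lg n).1) with h | h
  · rw [if_neg (not_le.2 h)]
    rcases Nat.eq_zero_or_pos (lg n).1 with h0 | h0
    · rw [h0, pow_zero] at h
      have h4 : n = 0 := by omega
      rw [h0, h4, Nat.log_zero_right]
    · obtain ⟨k, hk⟩ : ∃ k, (lg n).1 = k + 1 := ⟨(lg n).1 - 1, by omega⟩
      rw [hk] at h h2 ⊢
      rw [Nat.add_sub_cancel]
      refine (Nat.log_eq_of_pow_le_of_lt_pow ?_ h).symm
      rw [pow_succ] at h2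
      omega
  · rw [if_pos h]
    refine (Nat.log_eq_of_pow_le_of_lt_pow h ?_).symm
    have h4 : 0 < 2 ^ (lg n).1 := Nat.two_pow_pos _
    rw [pow_succ]
    omega

theorem PT.log2 {n : γ → ℕ} (hn : PT n) : PT fun c => Nat.log 2 (n c) :=
  (PT.ite (p := fun c => (lg (n c)).2 ≤ n c) (PT.le (PT.snd' (pt_lg hn)) hn) (PT.fst' (pt_lg hn))
    (PT.sub (PT.fst' (pt_lg hn)) (PT.const 1))).of_eq fun c => log2_lg (n c)

theorem PT.plog {n : γ → ℕ} (c : ℕ) (hn : PT n) : PT fun a => plog c (n a) :=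
  PT.add (PT.pow (PT.log2 hn) c) (PT.const c)

/-- A larger padding does no harm. -/
theorem QT.pad {f : α → β} (h : QT f) : ∃ (g : α × ℕ → β) (c : ℕ), PT g ∧
    ∀ a M, 2 ^ plog c (sz a) ≤ M → g (a, M) = f a := by
  obtain ⟨g, c, hg, h⟩ := h
  refine ⟨fun p => g (p.1, Votes.dbl p.2 (plog c (sz p.1))), c,
    hg.comp (PT.pair PT.fst (Votes.pt_dbl PT.snd (PT.plog c (PT.size PT.fst)))), fun a M hM => ?_⟩
  change g (a, Votes.dbl M (plog c (sz a))) = f a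
  rw [Votes.dbl_eq hM, h a]

theorem QT.of_pad {f : α → β} {g : α × ℕ → β} (c : ℕ) (hg : PT g)
    (h : ∀ a M, 2 ^ plog c (sz a) ≤ M → g (a, M) = f a) : QT f :=
  ⟨g, c, hg, fun a => (h a _ le_rfl).symm⟩

theorem QT.of_pt {f : α → β} (h : PT f) : QT f :=
  ⟨fun p => f p.1, 0, h.comp PT.fst, fun _ => rfl⟩

/-- The values have quasi-polynomial size. -/
theorem QT.size_le {f : α → β} (h : QT f) : ∃ c, ∀ a, sz (f a) ≤ 2 ^ plog c (sz a) := by
  obtain ⟨g, c, hg, h⟩ := h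
  obtain ⟨e, he⟩ := hg.size_le
  obtain ⟨c', hc'⟩ := Qp.QB.pow (Qp.QB.add (Qp.QB.add Qp.QB.id
    (Qp.QB.two_pow (Qp.PL.plog c))) (Qp.QB.const 3)) e
  refine ⟨c', fun a => ?_⟩
  have h1 := he (a, 2 ^ plog c (sz a))
  rw [← h a, sz_pair, sz_nat] at h1
  exact h1.trans (hc' (sz a))

end Pool.Agent.Lib.MP_634427_lc
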